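import Pool.Agent.Helper49.RU.St

/-!
# Module ANT of project RU (MP_a60174_an): antilinear parts vanish at most phase vectors
-/

set_option autoImplicit false

namespace Pool.Agent.Helper72.RU

open Pool.Agent.Helper49.RU
open MeasureTheory Filter Topology Complex
open scoped ENNReal Cardinal ComplexConjugate

/-- The antilinear part of a real linear operator. -/
private noncomputable def bb {k : ℕ} (M : V k →L[ℝ] V k) (v : V k) : V k :=
  (1 / 2 : ℂ) • (M v + Complex.I • M (Complex.I • v))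

private theorem real_smul {k : ℕ} (r : ℝ) (v : V k) : (r : ℂ) • v = r • v := by
  ext i
  simp

private theorem bb_add {k : ℕ} (M : V k →L[ℝ] V k) (v w : V k) :
    bb M (v + w) = bb M v + bb M w := by
  unfold bb
  rw [smul_add Complex.I v w, map_add, map_add, ← smul_add]
  congr 1
  rw [smul_add]
  abel

private theorem bb_real {k : ℕ} (M : V k →L[ℝ] V k) (r : ℝ) (v : V k) :
    bb M ((r : ℂ) • v) = (r : ℂ) • bb M v := by
  unfold bb
  rw [smul_comm Complex.I (r : ℂ) v, real_smul, real_smul, map_smul, map_smul, ← real_smul,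
    ← real_smul]
  simp only [smul_add, smul_smul]
  congr 2 <;> ring

private theorem bb_I {k : ℕ} (M : V k →L[ℝ] V k) (v : V k) :
    bb M (Complex.I • v) = (-Complex.I) • bb M v := by
  unfold bb
  rw [smul_smul Complex.I Complex.I v, Complex.I_mul_I, neg_one_smul, map_neg]
  simp only [smul_add, smul_smul, smul_neg, neg_smul, neg_mul]
  have h1 : Complex.I * (1 / 2) * Complex.I = -(1 / 2 : ℂ) := by
    rw [mul_right_comm, Complex.I_mul_I]; ring
  have h2 : (Complex.I * (1 / 2 * Complex.I) : ℂ) = -(1 / 2 : ℂ) := by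
    rw [← mul_assoc, h1]
  rw [h2, mul_comm Complex.I (1 / 2 : ℂ)]
  simp only [neg_smul, neg_neg]
  abel

private theorem bb_anti {k : ℕ} (M : V k →L[ℝ] V k) : IsAnti (bb M) := by
  refine ⟨bb_add M, fun c v => ?_⟩
  have hc : c • v = (c.re : ℂ) • v + (c.im : ℂ) • (Complex.I • v) := by
    rw [smul_smul, ← add_smul, Complex.re_add_im]
  rw [hc, bb_add, bb_real, bb_real, bb_I, smul_smul, ← add_smul]
  congr 1
  apply Complex.ext <;> simp

private theorem bb_norm {k : ℕ} (M : V k →L[ℝ] V k) (R : ℝ) (hM : ‖M‖ ≤ R) (v : V k) :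
    ‖bb M v‖ ≤ R * ‖v‖ := by
  have h1 : ‖M v‖ ≤ R * ‖v‖ :=
    (M.le_opNorm v).trans (mul_le_mul_of_nonneg_right hM (norm_nonneg v))
  have h2 : ‖Complex.I • M (Complex.I • v)‖ ≤ R * ‖v‖ := by
    rw [norm_smul, Complex.norm_I, one_mul]
    refine (M.le_opNorm _).trans ?_
    rw [norm_smul, Complex.norm_I, one_mul]
    exact mul_le_mul_of_nonneg_right hM (norm_nonneg v)
  unfold bb
  rw [norm_smul]
  have h3 := norm_add_le (M v) (Complex.I • M (Complex.I • v))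
  have h4 : ‖(1 / 2 : ℂ)‖ = 1 / 2 := by simp
  rw [h4]
  linarith

private theorem tst_eq {k : ℕ} (M : V k →L[ℝ] V k) (z : V k) :
    tst (⇑M) z = 2 * (inner ℂ z (bb M z) : ℂ).re := by
  unfold tst bb
  rw [inner_smul_right, inner_add_right, inner_smul_right, inner_smul_left]
  simp only [Complex.mul_re, Complex.add_re, Complex.add_im, Complex.mul_im, Complex.conj_I,
    Complex.neg_re, Complex.neg_im, Complex.I_re, Complex.I_im]
  norm_num
  ring

private theorem tst_le {k : ℕ} (M : V k →L[ℝ] V k) (z : V k) :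
    |tst (⇑M) z| ≤ 2 * ‖(inner ℂ z (bb M z) : ℂ)‖ := by
  rw [tst_eq, abs_mul, abs_two]
  exact mul_le_mul_of_nonneg_left (Complex.abs_re_le_norm _) (by norm_num)

private theorem two_rpow (s L : ℕ) (hL : 3 ≤ L) :
    (2 : ℝ) ^ ((s : ℝ) / ((L : ℝ) + 1)) ≤ (6 / 5 : ℝ) ^ s := by
  have hL' : (3 : ℝ) ≤ L := by exact_mod_cast hL
  have h1 : (2 : ℝ) ^ ((s : ℝ) / ((L : ℝ) + 1)) ≤ (2 : ℝ) ^ ((s : ℝ) / 4) := by
    refine Real.rpow_le_rpow_of_exponent_le (by norm_num) ?_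
    exact div_le_div_of_nonneg_left (Nat.cast_nonneg s) (by norm_num) (by linarith)
  have h2 : (2 : ℝ) ^ ((s : ℝ) / 4) ≤ ((6 / 5 : ℝ) ^ (4 : ℝ)) ^ ((s : ℝ) / 4) := by
    refine Real.rpow_le_rpow (by norm_num) ?_ (by positivity)
    have : ((6 / 5 : ℝ) ^ (4 : ℝ)) = (6 / 5 : ℝ) ^ (4 : ℕ) := by
      rw [← Real.rpow_natCast]; norm_num
    rw [this]; norm_num
  have h3 : ((6 / 5 : ℝ) ^ (4 : ℝ)) ^ ((s : ℝ) / 4) = (6 / 5 : ℝ) ^ s := by
    rw [← Real.rpow_mul (by norm_num), ← Real.rpow_natCast]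
    congr 1
    ring
  rw [h3] at h2
  exact h1.trans h2

theorem hANT (hHLF : StHLF) (hQUA : StQUA) (hCUB : StCUB) : StANT := by
  classical
  obtain ⟨hHa, -, hHc⟩ := hHLF
  intro j R ε hε
  obtain ⟨N, hN⟩ := pow_unbounded_of_one_lt (8 * R ^ 2 / ε ^ 2) (by norm_num : (1 : ℝ) < 5 / 4)
  refine ⟨max (4 * (j + 1)) N, ?_⟩
  intro k Z hZ M hM
  set L := max (4 * (j + 1)) N with hL
  have hL1 : 4 * (j + 1) ≤ L := le_max_left _ _
  have hL2 : N ≤ L := le_max_right _ _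
  obtain ⟨S, q, hZq, hLS, hden⟩ := id hZ
  set s := S.card with hs
  obtain ⟨u, hu, huz⟩ := hCUB k S q
  have hqua := hQUA {x // x ∈ S} (V k) u (bb M) R hu (bb_anti M) (bb_norm M R hM)
  set F : ({x // x ∈ S} → Q) → ℝ := fun g =>
    ‖(inner ℂ (∑ s, (nf {x // x ∈ S} * chi s g) • u s)
      (bb M (∑ s, (nf {x // x ∈ S} * chi s g) • u s)) : ℂ)‖ ^ 2 with hF
  have hcard : Fintype.card {x // x ∈ S} = s := Fintype.card_coe S
  rw [hcard] at hqua
  set ρ : (Fin k → Q) → ({x // x ∈ S} → Q) := fun g j => g j with hρ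
  have hFz : ∀ g ∈ Z, ‖(inner ℂ (zz g : V k) (bb M (zz g)) : ℂ)‖ ^ 2 = F (ρ g) := by
    intro g hg
    rw [huz g (hZq g hg)]
  set bad := Z.filter (fun g => ¬ |tst (⇑M) (zz g)| ≤ ε) with hbad
  have hinj : Set.InjOn ρ (bad : Set (Fin k → Q)) := by
    intro g hg g' hg' h
    have hg1 : g ∈ Z := (Finset.mem_filter.1 (Finset.mem_coe.1 hg)).1
    have hg1' : g' ∈ Z := (Finset.mem_filter.1 (Finset.mem_coe.1 hg')).1
    funext i
    by_cases hi : i ∈ S
    · exact congrFun h ⟨i, hi⟩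
    · rw [hZq g hg1 i hi, hZq g' hg1' i hi]
  have h1 : (bad.card : ℝ) * (ε ^ 2 / 4) ≤ ∑ g ∈ bad, F (ρ g) := by
    rw [← nsmul_eq_mul]
    refine Finset.card_nsmul_le_sum bad _ _ ?_
    intro g hg
    obtain ⟨hgZ, hgb⟩ := Finset.mem_filter.1 hg
    rw [← hFz g hgZ]
    have h2 := tst_le M (zz g)
    have h3 : ε / 2 ≤ ‖(inner ℂ (zz g : V k) (bb M (zz g)) : ℂ)‖ := by
      have := not_le.1 hgb
      linarith
    have h4 : ε ^ 2 / 4 = (ε / 2) ^ 2 := by ring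
    rw [h4]
    exact pow_le_pow_left₀ (by positivity) h3 2
  have h2 : ∑ g ∈ bad, F (ρ g) ≤ 6 ^ s * R ^ 2 := by
    rw [← Finset.sum_image (f := F) (g := ρ) hinj]
    refine le_trans ?_ hqua
    refine Finset.sum_le_sum_of_subset_of_nonneg (Finset.subset_univ _) fun g _ _ => ?_
    positivity
  have h3 : (9 : ℝ) ^ s ≤ (Z.card : ℝ) * (6 / 5 : ℝ) ^ s :=
    hden.trans (mul_le_mul_of_nonneg_left (two_rpow s L (by omega)) (Nat.cast_nonneg _))
  have h4 : (15 / 2 : ℝ) ^ s ≤ (Z.card : ℝ) := by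
    have h5 : (15 / 2 : ℝ) ^ s * (6 / 5 : ℝ) ^ s ≤ (Z.card : ℝ) * (6 / 5 : ℝ) ^ s := by
      rw [← mul_pow]
      norm_num
      norm_num at h3
      exact h3
    exact le_of_mul_le_mul_right h5 (by positivity)
  have h5 : 8 * R ^ 2 / ε ^ 2 ≤ (5 / 4 : ℝ) ^ s :=
    hN.le.trans (pow_le_pow_right₀ (by norm_num) (hL2.trans hLS))
  have h6 : 8 * R ^ 2 ≤ (5 / 4 : ℝ) ^ s * ε ^ 2 := by
    rwa [div_le_iff₀ (by positivity)] at h5
  have h7 : 2 * (bad.card : ℝ) ≤ (Z.card : ℝ) := by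
    have h8 : 2 * (bad.card : ℝ) * ε ^ 2 ≤ (Z.card : ℝ) * ε ^ 2 := by
      have h9 : 2 * (bad.card : ℝ) * ε ^ 2 ≤ 6 ^ s * (8 * R ^ 2) := by
        have := h1.trans h2
        nlinarith
      have h10 : (6 : ℝ) ^ s * (8 * R ^ 2) ≤ 6 ^ s * ((5 / 4 : ℝ) ^ s * ε ^ 2) :=
        mul_le_mul_of_nonneg_left h6 (by positivity)
      have h11 : (6 : ℝ) ^ s * ((5 / 4 : ℝ) ^ s * ε ^ 2) = (15 / 2 : ℝ) ^ s * ε ^ 2 := by
        rw [← mul_assoc, ← mul_pow]
        norm_num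
      have h12 : (15 / 2 : ℝ) ^ s * ε ^ 2 ≤ (Z.card : ℝ) * ε ^ 2 :=
        mul_le_mul_of_nonneg_right h4 (by positivity)
      linarith
    exact le_of_mul_le_mul_right h8 (by positivity)
  have h8 : 2 * bad.card ≤ Z.card := by exact_mod_cast h7
  refine ⟨Z.filter (fun g => |tst (⇑M) (zz g)| ≤ ε), Finset.filter_subset _ _, ?_, ?_⟩
  · refine hHc j k Z _ (hHa _ _ k Z hL1 hZ) (Finset.filter_subset _ _) ?_
    have h9 := Finset.card_filter_add_card_filter_not (s := Z) (fun g => |tst (⇑M) (zz g)| ≤ ε)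
    have h10 : (Z.filter (fun g => ¬ |tst (⇑M) (zz g)| ≤ ε)).card = bad.card := rfl
    omega
  · intro g hg
    exact (Finset.mem_filter.1 hg).2

end Pool.Agent.Helper72.RU
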